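import Pool.Agent.Q51.AG.Decay

set_option autoImplicit false

/-!
# Decay of `limsup a_r(n)/n` for almost Golomb sequences

`L_max(r) = limsup a_r(n) / n` tends to `0` as `r → ∞`.
-/

namespace Pool.Agent.Results.MP_04502c_nt.Decay

open Pool.Agent.Q51.AG Filter Topology

theorem result :
    (∀ r : ℕ, 2 ≤ r → ∃! a : ℕ → ℕ, IsAlmostGolomb r a) ∧
    (∀ a : ℕ → ℕ → ℕ, (∀ r, 2 ≤ r → IsAlmostGolomb r (a r)) →
      Tendsto (fun r : ℕ => limsup (fun n : ℕ => (a r n : ℝ) / n) atTop) atTop (𝓝 0)) ∧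
    (∀ ε : ℝ, 0 < ε → ∃ R : ℕ, ∀ r, R ≤ r → ∀ a : ℕ → ℕ, Sol r a →
      ∀ n : ℕ, r ≤ n → (a n : ℝ) ≤ ε * n) := by
  refine ⟨fun r hr => exists_unique hr, fun a ha => ?_, fun ε hε => Sol.small hε⟩
  rw [Metric.tendsto_atTop]
  intro ε hε
  obtain ⟨R, hR⟩ := Sol.small (half_pos hε)
  refine ⟨max R 2, fun r hr => ?_⟩
  have hrR : R ≤ r := (le_max_left _ _).trans hr
  have hr2 : 2 ≤ r := (le_max_right _ _).trans hr
  have hS : Sol r (a r) := (ha r hr2).1
  have hev : ∀ᶠ n : ℕ in atTop, (a r n : ℝ) / n ≤ ε / 2 := by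
    filter_upwards [eventually_ge_atTop r] with n hn
    have hn0 : (0 : ℝ) < n := by
      have : 0 < n := by omega
      exact_mod_cast this
    rw [div_le_iff₀ hn0]
    exact hR r hrR (a r) hS n hn
  have hb : IsBoundedUnder (· ≤ ·) atTop (fun n : ℕ => (a r n : ℝ) / n) :=
    ⟨ε / 2, by simpa using hev⟩
  have hb' : IsBoundedUnder (· ≥ ·) atTop (fun n : ℕ => (a r n : ℝ) / n) :=
    ⟨0, by
      simp only [ge_iff_le, eventually_map]
      exact Eventually.of_forall fun n => by positivity⟩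
  have h1 : limsup (fun n : ℕ => (a r n : ℝ) / n) atTop ≤ ε / 2 :=
    limsup_le_of_le hb'.isCoboundedUnder_le hev
  have h2 : 0 ≤ limsup (fun n : ℕ => (a r n : ℝ) / n) atTop :=
    le_limsup_of_frequently_le
      (Eventually.of_forall fun n => by positivity).frequently hb
  rw [Real.dist_eq, sub_zero, abs_of_nonneg h2]
  linarith

end Pool.Agent.Results.MP_04502c_nt.Decay
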